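import Pool.Agent.Helper50.MB.Goals

/-!
Project MB, packet COMP: completion of a part of a semi-meander.
-/

namespace Pool.Agent.Helper25.MB

open Pool.Agent.Helper50.MB

theorem lft_id (z : ℤ) : lft (fun x => x) z = z := by
  unfold lft
  split_ifs with h
  · exact Int.toNat_of_nonneg h
  · have : ((-1 - z).toNat : ℤ) = -1 - z := Int.toNat_of_nonneg (by omega)
    rw [this]
    ring

theorem cr_lft (io : ℕ → ℕ) (z : ℤ) : cr (lft io z) = io (cr z) := by
  unfold lft cr
  by_cases h : 0 ≤ z
  · rw [if_pos h, if_pos h, if_pos (by positivity)]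
    simp
  · rw [if_neg h, if_neg h, if_neg (by omega)]
    omega

/-- The renumbering of the crossings. -/
def io' (j : ℕ) (io : ℕ → ℕ) (x : ℕ) : ℕ := if io x < j then io x else io x - 2

theorem lft_io' (j : ℕ) (io : ℕ → ℕ) (z : ℤ) (h : io (cr z) < j ∨ j + 3 ≤ io (cr z)) :
    lft (io' j io) z = psi j (lft io z) := by
  unfold lft psi io' cr at *
  by_cases hz : 0 ≤ z
  · simp only [if_pos hz] at h ⊢
    by_cases h1 : io z.toNat < j
    · rw [if_pos h1, if_neg (by omega), if_neg (by omega)]
    · rw [if_neg h1, if_pos (by omega)]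
      omega
  · simp only [if_neg hz] at h ⊢
    by_cases h1 : io (-1 - z).toNat < j
    · rw [if_pos h1, if_neg (by omega), if_neg (by omega)]
    · rw [if_neg h1, if_neg (by omega), if_pos (by omega)]
      omega

/-- Packet COMP. -/
theorem goalCOMP (hSURG : Pool.Agent.Helper50.MB.SURG) : Pool.Agent.Helper50.MB.COMP := by
  intro h N a A hSZ hHF hA
  classical
  -- minimal completion
  have hex : ∃ N', ∃ (b : ℤ → ℤ) (io : ℕ → ℕ), Cpl a A N' b io ∧ (h = true → HF b) := by
    refine ⟨N, a, fun x => x, ⟨hSZ, ?_, ?_, ?_, ?_⟩, hHF⟩
    · intro x hx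
      exact Finset.mem_range.1 (hA hx)
    · intro x _ y _ hxy
      exact hxy
    · intro x _ _
      rfl
    · intro z _ _
      rw [lft_id, lft_id]
  obtain ⟨b, io, hC, hHb⟩ := Nat.find_spec hex
  have hmin : ∀ m, m < Nat.find hex → ¬ ∃ (b : ℤ → ℤ) (io : ℕ → ℕ), Cpl a A m b io ∧
      (h = true → HF b) := fun m hm => Nat.find_min hex hm
  set N' := Nat.find hex with hN'
  clear_value N'
  refine ⟨N', b, io, hC, hHb, ?_, ?_⟩
  · have hinj : Set.InjOn io A := by
      intro x hx y hy hxy
      rcases lt_trichotomy x y with hlt | heq | hgt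
      · exact absurd hxy (hC.mono x hx y hy hlt).ne
      · exact heq
      · exact absurd hxy (hC.mono y hy x hx hgt).ne'
    have := Finset.card_le_card_of_injOn (s := A) (t := Finset.range N') io
      (fun x hx => Finset.mem_coe.2 (Finset.mem_range.2 (hC.lt x hx))) hinj
    simpa using this
  · -- every window of three contains an old crossing
    have hclaim : ∀ j, j + 2 < N' → ∃ x ∈ A, io x = j ∨ io x = j + 1 ∨ io x = j + 2 := by
      intro j hj
      by_contra hcon
      push Not at hcon
      have hdich : ∀ x ∈ A, io x < j ∨ j + 3 ≤ io x := by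
        intro x hx
        obtain ⟨h1, h2, h3⟩ := hcon x hx
        omega
      obtain ⟨b', hb1, hb2, hb3⟩ := hSURG N' j b hC.sz (by omega)
      refine hmin (N' - 2) (by omega) ⟨b', io' j io, ⟨hb1, ?_, ?_, ?_, ?_⟩, fun hh =>
        hb2 (hHb hh)⟩
      · intro x hx
        have h1 := hC.lt x hx
        have h2 := hdich x hx
        unfold io'
        split_ifs <;> omega
      · intro x hx y hy hxy
        have h1 := hC.mono x hx y hy hxy
        have h2 := hdich x hx
        have h3 := hdich y hy
        unfold io'
        split_ifs <;> omega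
      · intro x hx hx1
        have h1 := hC.adj x hx hx1
        have h2 := hdich x hx
        have h3 := hdich (x + 1) hx1
        unfold io'
        split_ifs <;> omega
      · intro z hz haz
        rw [lft_io' j io z (hdich _ hz), lft_io' j io (a z) (hdich _ haz), ← hC.arcs z hz haz]
        apply hb3
        · rw [cr_lft]
          exact hdich _ hz
        · rw [hC.arcs z hz haz, cr_lft]
          exact hdich _ haz
    -- the gaps
    set B : Finset ℕ := A.filter fun x => x + 1 ∉ A with hB
    have hsub : Finset.range N' ⊆ A.image io ∪ ({0, 1} ∪ (B.image (fun x => io x + 1) ∪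
        B.image (fun x => io x + 2))) := by
      intro j hj
      rw [Finset.mem_range] at hj
      by_cases hjA : j ∈ A.image io
      · exact Finset.mem_union_left _ hjA
      apply Finset.mem_union_right
      by_cases hj1 : j ≤ 1
      · apply Finset.mem_union_left
        simp only [Finset.mem_insert, Finset.mem_singleton]
        omega
      apply Finset.mem_union_right
      have hnot : ∀ x ∈ A, io x ≠ j := fun x hx hc => hjA (Finset.mem_image.2 ⟨x, hx, hc⟩)
      by_cases hj2 : ∃ x ∈ A, io x = j - 1
      · obtain ⟨x, hx, hxj⟩ := hj2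
        apply Finset.mem_union_left
        refine Finset.mem_image.2 ⟨x, Finset.mem_filter.2 ⟨hx, fun hx1 => ?_⟩, by omega⟩
        have := hC.adj x hx hx1
        exact hnot (x + 1) hx1 (by omega)
      · push Not at hj2
        obtain ⟨x, hx, hxj⟩ := hclaim (j - 2) (by omega)
        have hxj2 : io x = j - 2 := by
          rcases hxj with h1 | h1 | h1
          · exact h1
          · exact absurd (by omega) (hj2 x hx)
          · exact absurd (by omega) (hnot x hx)
        apply Finset.mem_union_right
        refine Finset.mem_image.2 ⟨x, Finset.mem_filter.2 ⟨hx, fun hx1 => ?_⟩, by omega⟩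
        have := hC.adj x hx hx1
        exact hj2 (x + 1) hx1 (by omega)
    have hcard := Finset.card_le_card hsub
    rw [Finset.card_range] at hcard
    have c1 : (A.image io).card ≤ A.card := Finset.card_image_le
    have c2 : (({0, 1} : Finset ℕ)).card ≤ 2 := Finset.card_le_two
    have c3 : (B.image (fun x => io x + 1)).card ≤ B.card := Finset.card_image_le
    have c4 : (B.image (fun x => io x + 2)).card ≤ B.card := Finset.card_image_le
    have c5 := Finset.card_union_le (A.image io) ({0, 1} ∪ (B.image (fun x => io x + 1) ∪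
        B.image (fun x => io x + 2)))
    have c6 := Finset.card_union_le ({0, 1} : Finset ℕ) (B.image (fun x => io x + 1) ∪
        B.image (fun x => io x + 2))
    have c7 := Finset.card_union_le (B.image (fun x => io x + 1)) (B.image (fun x => io x + 2))
    have hBred : B.card ≤ red N A + 1 := by
      have hfin : {i : ℕ | i + 1 < N ∧ ¬ (i ∈ A ↔ i + 1 ∈ A)}.Finite :=
        (Set.finite_lt_nat N).subset fun i hi => by
          have := hi.1
          show i < N
          omega
      have h1 : ((B.erase (N - 1) : Finset ℕ) : Set ℕ) ⊆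
          {i : ℕ | i + 1 < N ∧ ¬ (i ∈ A ↔ i + 1 ∈ A)} := by
        intro i hi
        rw [Finset.mem_coe, Finset.mem_erase, hB, Finset.mem_filter] at hi
        obtain ⟨hi1, hi2, hi3⟩ := hi
        have hiN := Finset.mem_range.1 (hA hi2)
        refine ⟨by omega, fun hiff => hi3 (hiff.1 hi2)⟩
      have h2 := Set.ncard_le_ncard h1 hfin
      rw [Set.ncard_coe_finset] at h2
      have h3 := Finset.pred_card_le_card_erase (s := B) (a := N - 1)
      unfold red
      omega
    omega

end Pool.Agent.Helper25.MB
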