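import Pool.Agent.Helper77.MB.PHS
import Pool.Agent.Helper12.MB.BLK

/-! Project MB (MP_49a1ce_an), packet HAR (helper25): the Haar probability measure. -/

set_option autoImplicit false

open MeasureTheory Filter Topology TopologicalSpace

namespace Pool.Agent.Helper25.MB

open Pool.Agent.Helper59.MB

theorem haar2_prob : IsProbabilityMeasure haar2 := by
  refine ⟨?_⟩
  have h := Measure.addHaarMeasure_self (K₀ := (⊤ : PositiveCompacts ℤ_[2]))
  rwa [PositiveCompacts.coe_top] at h

instance haar2_haar : Measure.IsAddHaarMeasure haar2 :=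
  Measure.isAddHaarMeasure_addHaarMeasure _

theorem haar2_add (c : ℤ_[2]) : MeasurePreserving (fun t : ℤ_[2] => t + c) haar2 haar2 :=
  measurePreserving_add_right haar2 c

theorem ph_set (k r : ℕ) : MeasurableSet {t : ℤ_[2] | ph k t = r} :=
  (Pool.Agent.Helper77.MB.ph_cont k).measurable (measurableSet_singleton r)

theorem haar2_ph (k r : ℕ) (hr : r < 2 ^ k) : haar2 {t | ph k t = r} = (2 ^ k : ENNReal)⁻¹ := by
  obtain ⟨hlt, hadd, -, -, -, -⟩ := Pool.Agent.Helper77.MB.t_PHS
  have := haar2_prob
  -- all classes have the same measure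
  have hc : ∀ q < 2 ^ k, haar2 {t | ph k t = q} = haar2 {t | ph k t = 0} := by
    intro q hq
    have h1 := (haar2_add ((-(q : ℤ) : ℤ) : ℤ_[2])).measure_preimage
      (ph_set k 0).nullMeasurableSet
    rw [← h1]
    congr 1
    ext t
    simp only [Set.mem_setOf_eq, Set.mem_preimage]
    have h2 := hadd k t (-(q : ℤ))
    have h3 := hlt k t
    have hpow : (0 : ℤ) < 2 ^ k := by positivity
    have hq' : (q : ℤ) < 2 ^ k := by exact_mod_cast hq
    have h3' : (ph k t : ℤ) < 2 ^ k := by exact_mod_cast h3
    constructor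
    · intro h
      rw [h, add_neg_cancel, Int.zero_emod] at h2
      exact_mod_cast h2
    · intro h
      rw [h] at h2
      have h4 : (2 ^ k : ℤ) ∣ (ph k t : ℤ) + -(q : ℤ) := Int.dvd_of_emod_eq_zero (by
        rw [← h2]; rfl)
      obtain ⟨c, hc⟩ := h4
      have hc1 : c < 1 := by
        by_contra hcon
        push Not at hcon
        nlinarith
      have hc2 : -1 < c := by
        by_contra hcon
        push Not at hcon
        nlinarith
      have hc0 : c = 0 := by omega
      rw [hc0, mul_zero] at hc
      omega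
  have hsum : ∑ q ∈ Finset.range (2 ^ k), haar2 {t | ph k t = q} = 1 := by
    rw [← measure_biUnion_finset]
    · have : (⋃ q ∈ Finset.range (2 ^ k), {t : ℤ_[2] | ph k t = q}) = Set.univ := by
        ext t
        simp only [Set.mem_iUnion, Finset.mem_range, Set.mem_setOf_eq, Set.mem_univ, iff_true]
        exact ⟨ph k t, hlt k t, rfl⟩
      rw [this]
      exact measure_univ
    · intro a _ b _ hab
      rw [Function.onFun, Set.disjoint_left]
      intro t h1 h2
      exact hab (h1.symm.trans h2)
    · intro q _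
      exact ph_set k q
  rw [Finset.sum_congr rfl fun q hq => hc q (Finset.mem_range.1 hq), Finset.sum_const,
    Finset.card_range, nsmul_eq_mul] at hsum
  rw [hc r hr]
  refine ENNReal.eq_inv_of_mul_eq_one_left ?_
  rw [mul_comm]
  rw [← hsum]
  push_cast
  rfl

theorem shift_mp (m : Measure A) [IsProbabilityMeasure m] :
    MeasurePreserving (fun (w : ℤ → A) (n : ℤ) => w (n + 1)) (Measure.infinitePi fun _ : ℤ => m)
      (Measure.infinitePi fun _ : ℤ => m) := by
  refine ⟨measurable_pi_lambda _ fun n => measurable_pi_apply _, ?_⟩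
  exact Pool.Agent.Helper12.MB.t_BLK A m ℤ ℤ (fun n => n + 1) (add_left_injective 1)

/-- **HAR** -/
theorem t_HAR : S_HAR := by
  refine ⟨haar2_prob, haar2_add 1, haar2_ph, ?_⟩
  intro m _
  have := haar2_prob
  refine ⟨?_, ?_⟩
  · unfold BM
    infer_instance
  · exact (shift_mp m).prod (haar2_add 1)

end Pool.Agent.Helper25.MB
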